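import Mathlib

set_option autoImplicit false

/-!
# A finitely generated algebra of finite Gelfand-Kirillov dimension without greatest nilpotent ideal

The monomial algebra whose nonzero words are the factors of the words `x^n y x^n y … x^n y`
(`n + 1` blocks), realised as an algebra of operators on functions `ℕ → ℕ → ℚ`.
-/

namespace Pool.Agent.N206.GK

/-- the module: functions of (chain, position) -/
abbrev M : Type := ℕ → ℕ → ℚ

abbrev L (n : ℕ) : ℕ := (n + 1) * (n + 1)

/-- the letter `x` -/
def X : Module.End ℚ M where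
  toFun f n i := if i % (n + 1) < n ∧ i < L n then f n (i + 1) else 0
  map_add' f g := by
    funext n i
    by_cases h : i % (n + 1) < n ∧ i < L n <;> simp [h]
  map_smul' c f := by
    funext n i
    by_cases h : i % (n + 1) < n ∧ i < L n <;> simp [h]

/-- the letter `y` -/
def Y : Module.End ℚ M where
  toFun f n i := if i % (n + 1) = n ∧ i < L n then f n (i + 1) else 0
  map_add' f g := by
    funext n i
    by_cases h : i % (n + 1) = n ∧ i < L n <;> simp [h]
  map_smul' c f := by
    funext n i
    by_cases h : i % (n + 1) = n ∧ i < L n <;> simp [h]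

lemma X_apply (f : M) (n i : ℕ) :
    X f n i = if i % (n + 1) < n ∧ i < L n then f n (i + 1) else 0 := rfl

lemma Y_apply (f : M) (n i : ℕ) :
    Y f n i = if i % (n + 1) = n ∧ i < L n then f n (i + 1) else 0 := rfl

/-- the algebra -/
abbrev A : Type := ↥(Algebra.adjoin ℚ ({X, Y} : Set (Module.End ℚ M)))

def x : A := ⟨X, Algebra.subset_adjoin (by simp)⟩
def y : A := ⟨Y, Algebra.subset_adjoin (by simp)⟩

/-- action of the algebra on the module -/
abbrev act (T : A) (f : M) : M := (T : Module.End ℚ M) f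

lemma act_mul (S T : A) (f : M) : act (S * T) f = act S (act T f) := rfl

/-- functions vanishing on the positions `≥ i` of the chain `n` -/
def F (n i : ℕ) (f : M) : Prop := ∀ j, i ≤ j → f n j = 0

lemma F_mono {n i j : ℕ} (h : i ≤ j) {f : M} (hf : F n i f) : F n j f :=
  fun k hk => hf k (h.trans hk)

/-- elements of the algebra preserve `F n i` -/
lemma act_F (T : A) (n i : ℕ) (f : M) (hf : F n i f) : F n i (act T f) := by
  obtain ⟨T, hT⟩ := T
  change F n i (T f)
  induction hT using Algebra.adjoin_induction generalizing f with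
  | mem t ht =>
    intro j hj
    rcases ht with rfl | rfl
    · rw [X_apply, hf (j + 1) (by omega)]; simp
    · rw [Y_apply, hf (j + 1) (by omega)]; simp
  | algebraMap r =>
    intro j hj
    have := hf j hj
    simp [Algebra.algebraMap_eq_smul_one, this]
  | add a b _ _ ha hb =>
    intro j hj
    have h1 := ha f hf j hj
    have h2 := hb f hf j hj
    simp [h1, h2]
  | mul a b _ _ ha hb =>
    exact ha _ (hb f hf)

/-! ### the ideals `J g` -/

def JP (g : ℕ) (T : A) : Prop :=
  (∀ f n, n ≠ g → F n 0 (act T f)) ∧ (∀ f, F g (L g) (act T f)) ∧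
    ∀ i f, F g (i + 1) f → F g i (act T f)

lemma F_add {n i : ℕ} {f h : M} (hf : F n i f) (hh : F n i h) : F n i (f + h) := by
  intro j hj
  have h1 := hf j hj
  have h2 := hh j hj
  simp [h1, h2]

lemma F_neg {n i : ℕ} {f : M} (hf : F n i f) : F n i (-f) := by
  intro j hj
  have h1 := hf j hj
  simp [h1]

def J (g : ℕ) : TwoSidedIdeal A :=
  TwoSidedIdeal.mk' {T | JP g T}
    ⟨fun f n _ j _ => rfl, fun f j _ => rfl, fun i f _ j _ => rfl⟩
    (by
      rintro S T ⟨h1, h2, h3⟩ ⟨k1, k2, k3⟩
      exact ⟨fun f n hn => F_add (h1 f n hn) (k1 f n hn), fun f => F_add (h2 f) (k2 f),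
        fun i f hf => F_add (h3 i f hf) (k3 i f hf)⟩)
    (by
      rintro S ⟨h1, h2, h3⟩
      exact ⟨fun f n hn => F_neg (h1 f n hn), fun f => F_neg (h2 f),
        fun i f hf => F_neg (h3 i f hf)⟩)
    (by
      rintro S T ⟨h1, h2, h3⟩
      exact ⟨fun f n hn => act_F S n 0 _ (h1 f n hn), fun f => act_F S g _ _ (h2 f),
        fun i f hf => act_F S g i _ (h3 i f hf)⟩)
    (by
      rintro S T ⟨h1, h2, h3⟩
      exact ⟨fun f n hn => h1 (act T f) n hn, fun f => h2 (act T f),
        fun i f hf => h3 i _ (act_F T g _ _ hf)⟩)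

lemma mem_J {g : ℕ} {T : A} : T ∈ J g ↔ JP g T := by
  exact TwoSidedIdeal.mem_mk' _ _ _ _ _ _ T

lemma J_list (g : ℕ) : ∀ (l : List A), (∀ T ∈ l, T ∈ J g) → l ≠ [] → ∀ f,
    (∀ n, n ≠ g → F n 0 (act l.prod f)) ∧ F g (L g - (l.length - 1)) (act l.prod f) := by
  intro l
  induction l with
  | nil => intro _ h; exact absurd rfl h
  | cons T l ih =>
    intro hl _ f
    have hT := mem_J.1 (hl T (by simp))
    by_cases hnil : l = []
    · subst hnil
      simp only [List.prod_cons, List.prod_nil, mul_one, List.length_cons, List.length_nil]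
      exact ⟨fun n hn => hT.1 f n hn, hT.2.1 f⟩
    · obtain ⟨i1, i2⟩ := ih (fun S hS => hl S (by simp [hS])) hnil f
      have hlen : 0 < l.length := List.length_pos_iff.2 hnil
      rw [List.prod_cons]
      refine ⟨fun n hn => hT.1 _ n hn, ?_⟩
      change F g _ (act T (act l.prod f))
      simp only [List.length_cons]
      by_cases hc : L g - (l.length - 1) = 0
      · rw [hc] at i2
        have := act_F T g 0 _ i2
        exact F_mono (by omega) this
      · have h3 := hT.2.2 (L g - (l.length - 1) - 1) (act l.prod f)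
          (by rwa [Nat.sub_add_cancel (by omega)])
        exact F_mono (by omega) h3

lemma J_nilp (g : ℕ) : ∃ m : ℕ, ∀ f : Fin m → A, (∀ i, f i ∈ J g) → (List.ofFn f).prod = 0 := by
  refine ⟨L g + 1, fun f hf => ?_⟩
  have hl : ∀ T ∈ List.ofFn f, T ∈ J g := by
    intro T hT
    rw [List.mem_ofFn] at hT
    obtain ⟨i, rfl⟩ := hT
    exact hf i
  have hne : List.ofFn f ≠ [] := by
    rw [← List.length_pos_iff]; simp
  apply Subtype.ext
  apply LinearMap.ext
  intro u
  obtain ⟨h1, h2⟩ := J_list g _ hl hne u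
  funext n i
  change act _ u n i = 0
  by_cases hn : n = g
  · subst hn
    apply h2
    rw [List.length_ofFn]
    omega
  · exact h1 n hn i (by omega)

/-! ### words -/

/-- `x ^ g * y` kills the chain unless the letters fit -/
lemma xy_zero (n : ℕ) : ∀ (g r : ℕ), r ≤ n → r + g ≠ n → ∀ (f : M) (i : ℕ), i % (n + 1) = r →
    act (x ^ g * y) f n i = 0 := by
  intro g
  induction g with
  | zero =>
    intro r hr hne f i hi
    rw [pow_zero, one_mul]
    change Y f n i = 0
    rw [Y_apply, if_neg]
    rintro ⟨h, -⟩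
    omega
  | succ g ih =>
    intro r hr hne f i hi
    rw [pow_succ', mul_assoc, act_mul]
    change X (act (x ^ g * y) f) n i = 0
    rw [X_apply]
    split_ifs with hc
    · apply ih (r + 1) (by omega) (by omega)
      have : (i + 1) % (n + 1) = (i % (n + 1) + 1) % (n + 1) := by
        rw [Nat.add_mod]; 
        by_cases hn : n = 0
        · subst hn; simp [Nat.mod_one]
        · rw [Nat.mod_eq_of_lt (a := 1) (by omega)]
      rw [this, hi, Nat.mod_eq_of_lt (by omega)]
    · rfl

lemma mod_succ_top {n i : ℕ} (h : i % (n + 1) = n) : (i + 1) % (n + 1) = 0 := by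
  have h1 := Nat.div_add_mod i (n + 1)
  rw [h] at h1
  have : i + 1 = (n + 1) * (i / (n + 1) + 1) := by rw [Nat.mul_add, Nat.mul_one]; omega
  rw [this]; simp

/-- `y x^g y` is zero on the chains `n ≠ g` -/
lemma yxy_zero (g n : ℕ) (hn : n ≠ g) (f : M) (i : ℕ) : act (y * (x ^ g * y)) f n i = 0 := by
  rw [act_mul]
  change Y (act (x ^ g * y) f) n i = 0
  rw [Y_apply]
  split_ifs with hc
  · exact xy_zero n g 0 (by omega) (by omega) f (i + 1) (mod_succ_top hc.1)
  · rfl

lemma yxy_mem (g : ℕ) : y * (x ^ g * y) ∈ J g := by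
  rw [mem_J]
  refine ⟨fun f n hn j _ => yxy_zero g n hn f j, ?_, ?_⟩
  · intro f j hj
    rw [act_mul]
    change Y (act (x ^ g * y) f) g j = 0
    rw [Y_apply, if_neg]
    rintro ⟨-, h⟩
    omega
  · intro i f hf j hj
    rw [act_mul]
    have h := act_F (x ^ g * y) g (i + 1) f hf
    change Y (act (x ^ g * y) f) g j = 0
    rw [Y_apply]
    split_ifs with hc
    · exact h (j + 1) (by omega)
    · rfl

/-- restriction of a function to one chain -/
def res (n : ℕ) (f : M) : M := fun m i => if m = n then f m i else 0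

lemma res_act (T : A) (n : ℕ) (f : M) : act T (res n f) = res n (act T f) := by
  obtain ⟨T, hT⟩ := T
  change T (res n f) = res n (T f)
  induction hT using Algebra.adjoin_induction generalizing f with
  | mem t ht =>
    funext m i
    rcases ht with rfl | rfl
    · simp only [X_apply, res]; split_ifs <;> rfl
    · simp only [Y_apply, res]; split_ifs <;> rfl
  | algebraMap r =>
    funext m i
    simp [Algebra.algebraMap_eq_smul_one, res]
  | add a b _ _ ha hb =>
    funext m i
    have h1 := congrFun (congrFun (ha f) m) i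
    have h2 := congrFun (congrFun (hb f) m) i
    simp only [LinearMap.add_apply, Pi.add_apply, res] at h1 h2 ⊢
    rw [h1, h2]; split_ifs <;> simp
  | mul a b _ _ ha hb =>
    change a (b (res n f)) = res n (a (b f))
    rw [hb, ha]

lemma rel (g b : ℕ) (h : g ≠ b) : y * x ^ g * y * x ^ b * y = 0 := by
  have e : y * x ^ g * y * x ^ b * y = (y * x ^ g) * (y * (x ^ b * y)) := by
    simp only [mul_assoc]
  apply Subtype.ext
  apply LinearMap.ext
  intro f
  funext n i
  change act (y * x ^ g * y * x ^ b * y) f n i = 0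
  by_cases hn : n = b
  · -- the left factor kills the chain
    have hng : n ≠ g := fun h' => h (h'.symm.trans hn)
    have e2 : y * x ^ g * y * x ^ b * y = (y * (x ^ g * y)) * (x ^ b * y) := by
      simp only [mul_assoc]
    rw [e2, act_mul]
    exact yxy_zero g n hng _ i
  · rw [e, act_mul]
    have hz : F n 0 (act (y * (x ^ b * y)) f) := fun j _ => yxy_zero b n hn f j
    exact act_F (y * x ^ g) n 0 _ hz i (Nat.zero_le i)

/-! ### growth -/

def V : Submodule ℚ A := Submodule.span ℚ {1, x, y}

/-- `x^a (y x^g)^j y x^b` -/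
def w (a g j b : ℕ) : A := x ^ a * (y * x ^ g) ^ j * y * x ^ b

def W (n : ℕ) : Set A :=
  (fun q : (Fin (n + 1) × Fin (n + 1)) × (Fin (n + 1) × Fin (n + 1)) =>
    w q.1.1 q.1.2 q.2.1 q.2.2) '' Set.univ ∪ (fun a : Fin (n + 1) => x ^ (a : ℕ)) '' Set.univ

lemma w_mem {n a g j b : ℕ} (ha : a ≤ n) (hg : g ≤ n) (hj : j ≤ n) (hb : b ≤ n) :
    w a g j b ∈ W n :=
  Or.inl ⟨((⟨a, by omega⟩, ⟨g, by omega⟩), (⟨j, by omega⟩, ⟨b, by omega⟩)), trivial, rfl⟩

lemma x_mem {n a : ℕ} (ha : a ≤ n) : x ^ a ∈ W n :=
  Or.inr ⟨⟨a, by omega⟩, trivial, rfl⟩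

lemma W_finite (n : ℕ) : (W n).Finite := (Set.finite_univ.image _).union (Set.finite_univ.image _)

lemma W_card (n : ℕ) : (W n).ncard ≤ (n + 1) ^ 4 + (n + 1) := by
  refine (Set.ncard_union_le _ _).trans ?_
  refine Nat.add_le_add ?_ ?_
  · refine (Set.ncard_image_le Set.finite_univ).trans ?_
    rw [Set.ncard_univ]
    simp only [Nat.card_eq_fintype_card, Fintype.card_prod, Fintype.card_fin]
    exact le_of_eq (by ring)
  · refine (Set.ncard_image_le Set.finite_univ).trans ?_
    rw [Set.ncard_univ]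
    simp

lemma x_pow_ne (a b : ℕ) : x ^ a * x ^ b = x ^ (a + b) := (pow_add x a b).symm

lemma W_mul {n : ℕ} {s t : A} (hs : s ∈ W n) (ht : t ∈ ({1, x, y} : Set A)) :
    s * t = 0 ∨ s * t ∈ W (n + 1) := by
  rcases hs with ⟨⟨⟨a, g⟩, ⟨j, b⟩⟩, -, rfl⟩ | ⟨a, -, rfl⟩
  · have ha := a.2
    have hg := g.2
    have hj := j.2
    have hb := b.2
    simp only
    rcases ht with rfl | rfl | rfl
    · right; rw [mul_one]; exact w_mem (by omega) (by omega) (by omega) (by omega)
    · right
      have : w a g j b * x = w a g j (b + 1) := by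
        unfold w; rw [pow_succ]; simp only [mul_assoc]
      rw [this]
      exact w_mem (by omega) (by omega) (by omega) (by omega)
    · rcases Nat.eq_zero_or_pos (j : ℕ) with h0 | h0
      · right
        have : w a g j b * y = w a b 1 0 := by
          unfold w; rw [h0]; simp only [mul_assoc, pow_zero, pow_one, mul_one]
        rw [this]
        exact w_mem (by omega) (by omega) (by omega) (by omega)
      · by_cases hgb : (g : ℕ) = b
        · right
          have : w a g j b * y = w a g (j + 1) 0 := by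
            unfold w
            rw [pow_succ (y * x ^ (g : ℕ)) (j : ℕ), ← hgb]
            simp only [mul_assoc, pow_zero, mul_one]
          rw [this]
          exact w_mem (by omega) (by omega) (by omega) (by omega)
        · left
          obtain ⟨j', hj'⟩ : ∃ j', (j : ℕ) = j' + 1 := ⟨(j : ℕ) - 1, by omega⟩
          have : w a g j b * y = x ^ (a : ℕ) * (y * x ^ (g : ℕ)) ^ j' *
              (y * x ^ (g : ℕ) * y * x ^ (b : ℕ) * y) := by
            unfold w
            rw [hj', pow_succ]
            simp only [mul_assoc]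
          rw [this, rel _ _ hgb, mul_zero]
  · have ha := a.2
    simp only
    right
    rcases ht with rfl | rfl | rfl
    · rw [mul_one]; exact x_mem (by omega)
    · rw [← pow_succ]; exact x_mem (by omega)
    · have : x ^ (a : ℕ) * y = w a 0 0 0 := by unfold w; simp
      rw [this]
      exact w_mem (by omega) (by omega) (by omega) (by omega)

lemma V_pow (n : ℕ) : V ^ n ≤ Submodule.span ℚ (W n) := by
  induction n with
  | zero =>
    rw [pow_zero, Submodule.one_le]
    have : (1 : A) = x ^ 0 := (pow_zero x).symm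
    rw [this]
    exact Submodule.subset_span (x_mem le_rfl)
  | succ n ih =>
    rw [pow_succ]
    refine (mul_le_mul' ih (le_refl V)).trans ?_
    unfold V
    rw [Submodule.span_mul_span, Submodule.span_le]
    rintro _ ⟨s, hs, t, ht, rfl⟩
    rcases W_mul hs ht with h | h
    · change s * t ∈ _
      rw [h]; exact Submodule.zero_mem _
    · exact Submodule.subset_span h

lemma growth (n : ℕ) : Module.finrank ℚ ↥(V ^ n) ≤ 2 * (n + 1) ^ 4 := by
  have hf := W_finite n
  have : Module.Finite ℚ (Submodule.span ℚ (W n)) := FiniteDimensional.span_of_finite ℚ hf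
  refine (Submodule.finrank_mono (V_pow n)).trans ?_
  let _ : Fintype (W n) := hf.fintype
  refine (finrank_span_le_card (R := ℚ) (W n)).trans ?_
  rw [← Set.ncard_eq_toFinset_card']
  refine (W_card n).trans ?_
  have : n + 1 ≤ (n + 1) ^ 4 := Nat.le_self_pow (by norm_num) _
  omega

lemma adjoin_V : Algebra.adjoin ℚ (V : Set A) = ⊤ := by
  rw [eq_top_iff, ← Algebra.adjoin_adjoin_coe_preimage]
  apply Algebra.adjoin_mono
  intro t ht
  apply Submodule.subset_span
  rcases ht with h | h
  · right; left; exact Subtype.ext h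
  · right; right; exact Subtype.ext h

lemma fin_type : Algebra.FiniteType ℚ A := by
  classical
  refine ⟨⟨({x, y} : Finset A), ?_⟩⟩
  rw [eq_top_iff, ← Algebra.adjoin_adjoin_coe_preimage]
  apply Algebra.adjoin_mono
  intro t ht
  rcases ht with h | h
  · have : t = x := Subtype.ext h
    simp [this]
  · have : t = y := Subtype.ext h
    simp [this]

/-! ### nonvanishing -/

lemma x_one (g : ℕ) : ∀ (b i : ℕ) (f : M), i % (g + 1) + b ≤ g → i + b ≤ L g →
    act (x ^ b) f g i = f g (i + b) := by
  intro b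
  induction b with
  | zero => intro i f _ _; rw [pow_zero]; rfl
  | succ b ih =>
    intro i f h1 h2
    rw [pow_succ', act_mul]
    change X (act (x ^ b) f) g i = _
    have hm : (i + 1) % (g + 1) = i % (g + 1) + 1 := by
      rw [Nat.add_mod, Nat.mod_eq_of_lt (a := 1) (by omega), Nat.mod_eq_of_lt (by omega)]
    rw [X_apply, if_pos ⟨by omega, by omega⟩, ih (i + 1) f (by omega) (by omega)]
    congr 1; omega

lemma yx_one (g : ℕ) : ∀ (m i : ℕ), i % (g + 1) = g → i + m * (g + 1) ≤ L g →
    act ((y * x ^ g) ^ m) (fun _ _ => 1) g i = 1 := by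
  intro m
  induction m with
  | zero => intro i _ _; rw [pow_zero]; rfl
  | succ m ih =>
    intro i h1 h2
    rw [pow_succ', act_mul, act_mul]
    change Y (act (x ^ g) (act ((y * x ^ g) ^ m) _)) g i = 1
    rw [Nat.add_mul, Nat.one_mul] at h2
    have h0 := mod_succ_top h1
    rw [Y_apply, if_pos ⟨h1, by omega⟩, x_one g g (i + 1) _ (by omega) (by omega)]
    apply ih
    · have : i + 1 + g = i + (g + 1) := by omega
      rw [this, Nat.add_mod_right, h1]
    · omega

lemma z_ne (m : ℕ) : ((y * x ^ (2 * m + 1)) * (y * x ^ (2 * m + 1))) ^ m ≠ 0 := by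
  intro h
  rw [← pow_two, ← pow_mul] at h
  have h1 := yx_one (2 * m + 1) (2 * m) (2 * m + 1) (Nat.mod_eq_of_lt (by omega)) (by
    unfold L; nlinarith)
  rw [h] at h1
  exact zero_ne_one h1

lemma V_fin : Module.Finite ℚ V :=
  FiniteDimensional.span_of_finite ℚ (Set.toFinite ({1, x, y} : Set A))

lemma V_one : (1 : A) ∈ V := Submodule.subset_span (Or.inl rfl)

theorem main : ¬ (∀ (k : Type) [Field k] (A : Type) [Ring A] [Algebra k A],
      Algebra.FiniteType k A →
      (∃ V : Submodule k A, FiniteDimensional k V ∧ (1 : A) ∈ V ∧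
          Algebra.adjoin k (V : Set A) = ⊤ ∧
          ∃ C d : ℕ, ∀ n : ℕ, Module.finrank k ↥(V ^ n) ≤ C * (n + 1) ^ d) →
      ∃ N : TwoSidedIdeal A,
        (∃ m : ℕ, ∀ f : Fin m → A, (∀ i, f i ∈ N) → (List.ofFn f).prod = 0) ∧
        ∀ I : TwoSidedIdeal A,
          (∃ m : ℕ, ∀ f : Fin m → A, (∀ i, f i ∈ I) → (List.ofFn f).prod = 0) → I ≤ N) := by
  intro H
  obtain ⟨N, ⟨m, hm⟩, hN⟩ := H ℚ A fin_type
    ⟨V, V_fin, V_one,
      adjoin_V, 2, 4, growth⟩
  have h1 : y * (x ^ (2 * m + 1) * y) ∈ N := hN (J (2 * m + 1)) (J_nilp _) (yxy_mem _)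
  have h2 : (y * x ^ (2 * m + 1)) * (y * x ^ (2 * m + 1)) ∈ N := by
    have := N.mul_mem_right _ (x ^ (2 * m + 1)) h1
    simpa only [mul_assoc] using this
  have h3 := hm (fun _ => (y * x ^ (2 * m + 1)) * (y * x ^ (2 * m + 1))) (fun _ => h2)
  rw [List.ofFn_const, List.prod_replicate] at h3
  exact z_ne m h3

end Pool.Agent.N206.GK
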